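import Pool.Agent.Q163.LP.Lim

/-!
# `∑ k^s x^k / (k!)^m` is in the Laguerre-Polya class for every `s > 0` and every `m ≥ 3`
-/

namespace Pool.Agent.Results.MP_5e2fde_an.ExponentThree

open Polynomial Filter Topology
open Pool.Agent.Helper771.MultSeq Pool.Agent.Q163.LP

/-- The Laguerre-Polya class: limits, uniformly on compact subsets of `ℂ`, of real polynomials
with only real zeros. -/
def InLP (f : ℂ → ℂ) : Prop := ∃ P : ℕ → ℝ[X],
  (∀ n, ∀ z : ℂ, aeval z (P n) = 0 → z.im = 0) ∧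
  ∀ K : Set ℂ, IsCompact K → TendstoUniformlyOn (fun n (z : ℂ) => aeval z (P n)) f atTop K

/-- `LP⁺`: the members of the Laguerre-Polya class with nonnegative Taylor coefficients at `0`. -/
def InLPplus (f : ℂ → ℂ) : Prop :=
  InLP f ∧ ∃ c : ℕ → ℝ, (∀ k, 0 ≤ c k) ∧ ∀ z : ℂ, HasSum (fun k => (c k : ℂ) * z ^ k) (f z)

/-- `F_{s,m}(x) = ∑ k^s x^k / (k!)^m` -/
noncomputable def F (s : ℝ) (m : ℕ) (x : ℂ) : ℂ :=
  ∑' k : ℕ, (((k : ℝ) ^ s / (k.factorial : ℝ) ^ m : ℝ) : ℂ) * x ^ k

lemma summable_aux {s : ℝ} (hs : 0 < s) {m : ℕ} (hm : 1 ≤ m) (R : ℝ) (hR : 0 < R) :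
    Summable fun k : ℕ => (k : ℝ) ^ s / (k.factorial : ℝ) ^ m * R ^ k := by
  have h1 := Real.summable_pow_div_factorial (Real.exp s * R)
  refine Summable.of_nonneg_of_le (fun k => by positivity) (fun k => ?_) h1
  have h2 : (k : ℝ) ^ s ≤ Real.exp s ^ k := by
    rw [← Real.exp_nat_mul]
    rcases Nat.eq_zero_or_pos k with h | h
    · subst h
      rw [Nat.cast_zero, Real.zero_rpow hs.ne']
      positivity
    · have hk : (0 : ℝ) < k := by exact_mod_cast h
      rw [Real.rpow_def_of_pos hk]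
      apply Real.exp_le_exp.2
      apply mul_le_mul_of_nonneg_right _ hs.le
      have := Real.log_le_sub_one_of_pos hk
      linarith
  have h3 : (1 : ℝ) ≤ k.factorial := by exact_mod_cast Nat.succ_le_of_lt k.factorial_pos
  have h4 : (k.factorial : ℝ) ≤ (k.factorial : ℝ) ^ m := le_self_pow₀ h3 (by omega)
  rw [mul_pow]
  calc (k : ℝ) ^ s / (k.factorial : ℝ) ^ m * R ^ k ≤ Real.exp s ^ k / (k.factorial : ℝ) * R ^ k := by
        apply mul_le_mul_of_nonneg_right _ (by positivity)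
        exact div_le_div₀ (by positivity) h2 (by positivity) h4
    _ = _ := by ring

/-- For every real `s > 0` and every integer `m ≥ 3` the function `F_{s,m}` is in `LP⁺`. -/
theorem result : ∀ s : ℝ, 0 < s → ∀ m : ℕ, 3 ≤ m → InLPplus (F s m) := by
  intro s hs m hm
  obtain ⟨j, rfl⟩ : ∃ j, m = j + 3 := ⟨m - 3, by omega⟩
  have hms : IsMultiplierSequence (fun k => (k : ℝ) ^ s / (k.factorial : ℝ) ^ (j + 2)) := by
    have h1 := ms_mul (ms_rpow hs) (ms_pow ms_invfact j)
    convert h1 using 2 with k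
    have hf : (k.factorial : ℝ) ≠ 0 := by exact_mod_cast k.factorial_ne_zero
    rw [one_div, inv_pow]
    field_simp
    ring
  have hdiv : ∀ k : ℕ, (k : ℝ) ^ s / (k.factorial : ℝ) ^ (j + 2) / (k.factorial : ℝ) =
      (k : ℝ) ^ s / (k.factorial : ℝ) ^ (j + 3) := by
    intro k
    rw [div_div, ← pow_succ]
  obtain ⟨P, hP1, hP2, hP3⟩ := lp_of_ms hms (fun k => by positivity) ⟨1, by simp⟩ (by
    intro R hR
    simp_rw [hdiv]
    exact summable_aux hs (by omega) R hR)
  simp_rw [hdiv] at hP3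
  refine ⟨⟨P, fun n z hz => (hP1 n z hz).1, fun K hK =>
    (tendstoLocallyUniformly_iff_forall_isCompact.1 hP3) K hK⟩, fun k =>
      (k : ℝ) ^ s / (k.factorial : ℝ) ^ (j + 3), fun k => by positivity, fun z => ?_⟩
  apply Summable.hasSum
  apply Summable.of_norm_bounded (summable_aux hs (m := j + 3) (by omega) (‖z‖ + 1) (by positivity))
  intro k
  rw [norm_mul, norm_pow, Complex.norm_real, Real.norm_of_nonneg (by positivity)]
  apply mul_le_mul_of_nonneg_left _ (by positivity)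
  exact pow_le_pow_left₀ (norm_nonneg _) (by linarith) k

end Pool.Agent.Results.MP_5e2fde_an.ExponentThree
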